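import Pool.Agent.Lib.MP_08bba9_an.N.Main
import Pool.Agent.Lib.MP_08bba9_an.Co.Top

namespace Pool.Agent.Results.MP_08bba9_an.Full

open Pool.Agent.Lib.MP_08bba9_an

/-- Every C*-algebra has the trace description. -/
theorem result (A : Type*) [NonUnitalCStarAlgebra A] : NS.TraceDescription A :=
  final (fun B _ => hh_all B) A

end Pool.Agent.Results.MP_08bba9_an.Full
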